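import Pool.Agent.R140.PK.Check

set_option autoImplicit false
set_option maxRecDepth 10000

/-!
# A search for graphs without circuits of length at most four and without long circuits

A state is a graph on `0, ..., n - 1`, given by its adjacency matrix: bit `32 * i + j` of a number.
The search extends a state by a path between two of its vertices (an ear), which starts at a vertex
with at most two neighbours if there is one, until there is a circuit which is too long.  The list of
numbers is a certificate.
-/

namespace Pool.Agent.U513.C15

open Pool.Agent.R140.PK (row tb bit orRows cnt)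

/-- adds an edge -/
def addE (A x y : Nat) : Nat :=
  Nat.lor (Nat.lor A (bit (Nat.add (Nat.mul (nat_lit 32) x) y)))
    (bit (Nat.add (Nat.mul (nat_lit 32) y) x))

/-- adds a path from `x` to `y` with the new vertices `n, n + 1, ...` -/
def earA (y : Nat) : Nat → Nat → Nat → Nat → Nat
  | 0, A, x, _ => addE A x y
  | r + 1, A, x, n => earA y r (addE A x n) n (Nat.succ n)

/-- the digits of `p` are a path from `x` to `y` -/
def isP (A y : Nat) : Nat → Nat → Nat → Nat → Bool
  | 0, _, _, x => Nat.beq x y
  | k + 1, p, seen, x =>
    bif tb seen (Nat.mod p (nat_lit 32)) then false else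
    bif tb (row A x) (Nat.mod p (nat_lit 32)) then
      isP A y k (Nat.div p (nat_lit 32)) (Nat.lor seen (bit (Nat.mod p (nat_lit 32))))
        (Nat.mod p (nat_lit 32))
    else false

/-- the children for the ears from `x` to `y` with `r, r + 1, ...` new vertices -/
def rl (g : Nat → Nat → List Nat → Option (List Nat)) (A x y n : Nat) :
    Nat → Nat → List Nat → Option (List Nat)
  | 0, _, s => some s
  | c + 1, r, s => Option.bind (g (Nat.add n r) (earA y r A x n) s)
      (fun s' => rl g A x y n c (Nat.succ r) s')

/-- lower bound for the number of new vertices of an ear which ends in `y` -/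
def lo (b1 b2 b3 rm y : Nat) : Nat :=
  bif tb b1 y then (nat_lit 3) else bif tb b2 y then (nat_lit 2) else
    bif tb b3 y then (nat_lit 1) else rm

/-- all ears from `x` to a vertex below a given one -/
def yl (g : Nat → Nat → List Nat → Option (List Nat)) (C A x n b1 b2 b3 rm : Nat) :
    Nat → List Nat → Option (List Nat)
  | 0, s => some s
  | y + 1, s => bif Nat.beq y x then yl g C A x n b1 b2 b3 rm y s else
    match s with
    | [] => none
    | c :: s' => bif isP A y (Nat.mod c (nat_lit 32)) (Nat.div c (nat_lit 32)) (bit x) x then
        Option.bind (rl g A x y n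
          (Nat.sub (Nat.sub C (Nat.mod c (nat_lit 32))) (lo b1 b2 b3 rm y)) (lo b1 b2 b3 rm y) s')
          (fun s'' => yl g C A x n b1 b2 b3 rm y s'')
      else none

/-- all ears with new vertices -/
def xl (g : Nat → Nat → List Nat → Option (List Nat)) (C A n : Nat) :
    Nat → List Nat → Option (List Nat)
  | 0, s => some s
  | x + 1, s => Option.bind (yl g C A x n (row A x) (orRows A (row A x) n)
      (orRows A (orRows A (row A x) n) n) (nat_lit 1) x s) (fun s' => xl g C A n x s')

/-- a digit of a map -/
def dig (m i : Nat) : Nat :=
  Nat.mod (Nat.shiftRight m (Nat.mul (nat_lit 5) i)) (nat_lit 32)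

/-- the map is injective below a number and its values are less than `n` -/
def inj (m n : Nat) : Nat → Nat → Bool
  | 0, _ => true
  | i + 1, seen => bif tb seen (dig m i) then false else bif Nat.blt (dig m i) n then
      inj m n i (Nat.lor seen (bit (dig m i))) else false

/-- the map maps edges to edges -/
def edg (A m : Nat) : List Nat → Bool
  | [] => true
  | e :: es => bif tb (row A (dig m (Nat.div e (nat_lit 32)))) (dig m (Nat.mod e (nat_lit 32))) then
      edg A m es else false

/-- the matrix of a list of edges -/
def mkA : List Nat → Nat → Nat
  | [], A => A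
  | e :: es, A => mkA es (addE A (Nat.div e (nat_lit 32)) (Nat.mod e (nat_lit 32)))

/-- the member of the list with the given number is mapped -/
def ref (n A m : Nat) : List (Nat × List Nat) → Nat → Bool
  | [], _ => false
  | L :: D, j => bif Nat.beq j (nat_lit 0) then
      bif inj m n L.1 (nat_lit 0) then edg A m L.2 else false
    else ref n A m D (Nat.pred j)

/-- the checker; it returns the unused part of the certificate -/
def check (C : Nat) (D : List (Nat × List Nat)) : Nat → Nat → Nat → List Nat → Option (List Nat)
  | 0, _, _, _ => none
  | _ + 1, _, _, [] => none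
  | f + 1, n, A, c :: s =>
    bif Nat.ble (nat_lit 32) n then none else bif Nat.ble n (nat_lit 1) then none else
    bif Nat.beq (Nat.mod c (nat_lit 4)) (nat_lit 0) then
      bif Nat.blt (Nat.div c (nat_lit 4)) n then
        bif Nat.ble (cnt (row A (Nat.div c (nat_lit 4))) n) (nat_lit 2) then
          yl (check C D f) C A (Nat.div c (nat_lit 4)) n (row A (Nat.div c (nat_lit 4)))
            (orRows A (row A (Nat.div c (nat_lit 4))) n)
            (orRows A (orRows A (row A (Nat.div c (nat_lit 4))) n) n) (nat_lit 0) n s
        else none
      else none
    else bif Nat.beq (Nat.mod c (nat_lit 4)) (nat_lit 1) then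
      bif Nat.ble n (nat_lit 17) then xl (check C D f) C A n n s else none
    else match s with
      | [] => none
      | m :: s' => bif ref n A m D (Nat.div c (nat_lit 4)) then some s' else none

/-- a list of certificates; each may use the earlier ones -/
def run (C F : Nat) : List (Nat × List Nat) → List (Nat × List Nat × List Nat) → Bool
  | _, [] => true
  | D, L :: Ls => bif Option.isSome (check C D F L.1 (mkA L.2.1 (nat_lit 0)) L.2.2) then
      run C F ((L.1, L.2.1) :: D) Ls else false

end Pool.Agent.U513.C15
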