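import Pool.Agent.U513.C15.Push
import Pool.Agent.U513.C15.D14p0
import Pool.Agent.U513.C15.D14p1
import Pool.Agent.U513.C15.D14p2
import Pool.Agent.U513.C15.D15p0
import Pool.Agent.U513.C15.D15p1
import Pool.Agent.U513.C15.D15p2
import Pool.Agent.U513.C15.D15p3
import Pool.Agent.U513.C15.D15p4
import Pool.Agent.U513.C15.D15p5
import Pool.Agent.U513.C15.D15p6
import Pool.Agent.U513.C15.D15p7
import Pool.Agent.U513.C15.D15p8
import Pool.Agent.U513.C15.D15p9

set_option autoImplicit false

/-!
# The states which are excluded by the parts of the certificates
-/

namespace Pool.Agent.U513.C15

/-- the states which are excluded by the first 1 parts -/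
abbrev e14p1 : List (Nat × List Nat) := push [] d14p0

/-- the states which are excluded by the first 2 parts -/
abbrev e14p2 : List (Nat × List Nat) := push e14p1 d14p1

/-- the states which are excluded by the first 3 parts -/
abbrev e14p3 : List (Nat × List Nat) := push e14p2 d14p2

/-- the states which are excluded by the first 1 parts -/
abbrev e15p1 : List (Nat × List Nat) := push [] d15p0

/-- the states which are excluded by the first 2 parts -/
abbrev e15p2 : List (Nat × List Nat) := push e15p1 d15p1

/-- the states which are excluded by the first 3 parts -/
abbrev e15p3 : List (Nat × List Nat) := push e15p2 d15p2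

/-- the states which are excluded by the first 4 parts -/
abbrev e15p4 : List (Nat × List Nat) := push e15p3 d15p3

/-- the states which are excluded by the first 5 parts -/
abbrev e15p5 : List (Nat × List Nat) := push e15p4 d15p4

/-- the states which are excluded by the first 6 parts -/
abbrev e15p6 : List (Nat × List Nat) := push e15p5 d15p5

/-- the states which are excluded by the first 7 parts -/
abbrev e15p7 : List (Nat × List Nat) := push e15p6 d15p6

/-- the states which are excluded by the first 8 parts -/
abbrev e15p8 : List (Nat × List Nat) := push e15p7 d15p7

/-- the states which are excluded by the first 9 parts -/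
abbrev e15p9 : List (Nat × List Nat) := push e15p8 d15p8

/-- the states which are excluded by the first 10 parts -/
abbrev e15p10 : List (Nat × List Nat) := push e15p9 d15p9

end Pool.Agent.U513.C15
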