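import Pool.Agent.U513.C15.E

set_option autoImplicit false
set_option maxRecDepth 1000000

/-!
# The certificate is correct: a part
-/

namespace Pool.Agent.U513.C15

theorem t15p1 : (run 15 40 e15p1 d15p1 && small d15p1) = true := by decide +kernel

end Pool.Agent.U513.C15
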