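import Pool.Agent.U513.C15.Sound
import Pool.Agent.U513.C15.T14p0
import Pool.Agent.U513.C15.T14p1
import Pool.Agent.U513.C15.T14p2
import Pool.Agent.U513.C15.T15p0
import Pool.Agent.U513.C15.T15p1
import Pool.Agent.U513.C15.T15p2
import Pool.Agent.U513.C15.T15p3
import Pool.Agent.U513.C15.T15p4
import Pool.Agent.U513.C15.T15p5
import Pool.Agent.U513.C15.T15p6
import Pool.Agent.U513.C15.T15p7
import Pool.Agent.U513.C15.T15p8
import Pool.Agent.U513.C15.T15p9
import Pool.Agent.N393.C13.All

set_option autoImplicit false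

/-!
# Graphs of girth five without circuits longer than fifteen
-/

namespace Pool.Agent.U513.C15

open Pool.Agent.R145.Cir Pool.Agent.N393.C13

section
variable {V : Type} {G : SimpleGraph V}

theorem step {C : ℕ} (hA : Adm G C) (hC : 3 ≤ C) {D : List (ℕ × List ℕ)}
    {Ls : List (ℕ × List ℕ × List ℕ)} (h : Sm D ∧ Exc G D)
    (ht : (run C 40 D Ls && small Ls) = true) : Sm (push D Ls) ∧ Exc G (push D Ls) := by
  rw [Bool.and_eq_true] at ht
  exact run_spec hA hC Ls D h.1 h.2 ht.2 ht.1

theorem nil_ok : Sm [] ∧ Exc G [] := ⟨fun _ h => by simp at h, fun _ h => by simp at h⟩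

theorem exc14 (hA : Adm G 14) : Exc G e14p3 :=
  (step hA (by norm_num) (step hA (by norm_num) (step hA (by norm_num) nil_ok t14p0) t14p1)
    t14p2).2

theorem exc15 (hA : Adm G 15) : Exc G e15p10 :=
  (step hA (by norm_num) (step hA (by norm_num) (step hA (by norm_num) (step hA (by norm_num)
    (step hA (by norm_num) (step hA (by norm_num) (step hA (by norm_num) (step hA (by norm_num)
    (step hA (by norm_num) (step hA (by norm_num) nil_ok t15p0) t15p1) t15p2) t15p3) t15p4) t15p5)
    t15p6) t15p7) t15p8) t15p9).2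

theorem root14 : e14p3.head? = some (14, [1, 34, 67, 100, 133, 166, 199, 232, 265, 298, 331, 364,
    397, 416]) := by decide +kernel

theorem root15 : e15p10.head? = some (15, [1, 34, 67, 100, 133, 166, 199, 232, 265, 298, 331, 364,
    397, 430, 448]) := by decide +kernel

theorem no14 (hA : Adm G 14) (K : List V) (hK : Ci G K) : K.length ≠ 14 :=
  no_ci (by norm_num) (exc14 hA) (List.mem_of_mem_head? root14) (by decide) K hK

theorem no15 (hA : Adm G 15) (K : List V) (hK : Ci G K) : K.length ≠ 15 :=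
  no_ci (by norm_num) (exc15 hA) (List.mem_of_mem_head? root15) (by decide) K hK

/-- **Graphs with minimum degree at least three, girth at least five and at least 18 vertices which
are 2-connected have a circuit with at least sixteen vertices.** -/
theorem core15 [Fintype V] (hg : Gi G)
    (hd : ∀ x y, G.Adj x y → ∃ a b c, a ≠ b ∧ b ≠ c ∧ a ≠ c ∧ G.Adj x a ∧ G.Adj x b ∧ G.Adj x c)
    (hcon : Con2 G) (hc : ∀ l, Ci G l → l.length ≤ 15) (T : Finset V) (hT : 18 ≤ T.card)
    (hT' : ∀ v ∈ T, ∃ w, G.Adj v w) : False := by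
  classical
  obtain ⟨v, hv⟩ : T.Nonempty := Finset.card_pos.mp (by omega)
  obtain ⟨w, hvw⟩ := hT' v hv
  have h15 : Adm G 15 := ⟨hg, hcon, hd, hc, T, hT, hT'⟩
  have hc14 : ∀ l, Ci G l → l.length ≤ 14 := fun l hl => by
    have h1 := hc l hl
    have h2 := no15 h15 l hl
    omega
  have h14 : Adm G 14 := ⟨hg, hcon, hd, hc14, T, hT, hT'⟩
  have hc13 : ∀ l, Ci G l → l.length ≤ 13 := fun l hl => by
    have h1 := hc14 l hl
    have h2 := no14 h14 l hl
    omega
  exact core Pool.Agent.N393.C13.leaves.1 Pool.Agent.N393.C13.leaves.2.1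
    Pool.Agent.N393.C13.leaves.2.2.1 hg hd hcon hc13 T hT hT'

end

end Pool.Agent.U513.C15
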