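import Pool.Agent.U513.C15.Check

set_option autoImplicit false

namespace Pool.Agent.U513.C15

/-- the certificates without the trees, in reverse order -/
def push : List (Nat × List Nat) → List (Nat × List Nat × List Nat) → List (Nat × List Nat)
  | D, [] => D
  | D, L :: Ls => push ((L.1, L.2.1) :: D) Ls

/-- the edges are given by small numbers -/
def small : List (Nat × List Nat × List Nat) → Bool
  | [] => true
  | L :: Ls => (L.2.1.all fun e => Nat.blt e 1024 && (Nat.blt (e / 32) L.1 &&
      Nat.blt (e % 32) L.1)) && small Ls

end Pool.Agent.U513.C15
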