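import Pool.Agent.U513.C15.Push
import Pool.Agent.N393.C13.Core

set_option autoImplicit false

/-!
# The search is correct
-/

namespace Pool.Agent.U513.C15

open Pool.Agent.R140.PK (row tb bit orRows cnt row_bit tb_eq bit_bit lor_bit orRows_bit cnt_eq)
open Pool.Agent.R145.Cir Pool.Agent.N393.C13

section
variable {V : Type} {G : SimpleGraph V}

/-- the graphs which are to be excluded -/
structure Adm (G : SimpleGraph V) (C : ℕ) : Prop where
  gi : Gi G
  con : Con2 G
  deg : ∀ x y, G.Adj x y → ∃ a b c, a ≠ b ∧ b ≠ c ∧ a ≠ c ∧ G.Adj x a ∧ G.Adj x b ∧ G.Adj x c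
  cir : ∀ l, Ci G l → l.length ≤ C
  big : ∃ T : Finset V, 18 ≤ T.card ∧ ∀ v ∈ T, ∃ w, G.Adj v w

/-- the graph contains the state -/
structure Emb (G : SimpleGraph V) (n A : ℕ) (f : ℕ → V) : Prop where
  inj : ∀ i < n, ∀ j < n, f i = f j → i = j
  lt : ∀ i j, (row A i).testBit j = true → i < n ∧ j < n
  adj : ∀ i j, (row A i).testBit j = true → G.Adj (f i) (f j)
  nb : ∀ i < n, ∃ w, G.Adj (f i) w

/-- a path between two vertices of the state -/
structure Ear (G : SimpleGraph V) (f : ℕ → V) (n x y : ℕ) (q : List V) : Prop where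
  pa : Pa G (f x :: (q ++ [f y]))
  out : ∀ z ∈ q, ∀ i < n, z ≠ f i

theorem row_addE {A x y i j : ℕ} (hx : x < 32) (hy : y < 32) :
    (row (addE A x y) i).testBit j = true ↔
      (row A i).testBit j = true ∨ (i = x ∧ j = y) ∨ (i = y ∧ j = x) := by
  have h : addE A x y = Nat.lor (Nat.lor A (bit (32 * x + y))) (bit (32 * y + x)) := rfl
  rw [h, row_bit, row_bit, lor_bit, lor_bit, bit_bit, bit_bit]
  simp only [Bool.and_eq_true, Bool.or_eq_true, decide_eq_true_eq]
  constructor
  · rintro ⟨h1, (h2 | h2) | h2⟩
    · exact Or.inl ⟨h1, h2⟩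
    · right; left; omega
    · right; right; omega
  · rintro (⟨h1, h2⟩ | ⟨rfl, rfl⟩ | ⟨rfl, rfl⟩)
    · exact ⟨h1, Or.inl (Or.inl h2)⟩
    · exact ⟨hy, Or.inl (Or.inr rfl)⟩
    · exact ⟨hx, Or.inr rfl⟩

theorem Emb.add {n A : ℕ} {f : ℕ → V} (h : Emb G n A f) {x y : ℕ} (hx : x < n) (hy : y < n)
    (hn : n ≤ 32) (hxy : G.Adj (f x) (f y)) : Emb G n (addE A x y) f := by
  refine ⟨h.inj, ?_, ?_, h.nb⟩
  · intro i j hij
    rw [row_addE (by omega) (by omega)] at hij
    rcases hij with hij | ⟨rfl, rfl⟩ | ⟨rfl, rfl⟩
    · exact h.lt i j hij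
    · exact ⟨hx, hy⟩
    · exact ⟨hy, hx⟩
  · intro i j hij
    rw [row_addE (by omega) (by omega)] at hij
    rcases hij with hij | ⟨rfl, rfl⟩ | ⟨rfl, rfl⟩
    · exact h.adj i j hij
    · exact hxy
    · exact hxy.symm

theorem Emb.ext {y : ℕ} : ∀ (q : List V) (n A x : ℕ) (f : ℕ → V), Emb G n A f → x < n → y < n →
    n + q.length ≤ 32 → (f x :: (q ++ [f y])).IsChain G.Adj → q.Nodup →
    (∀ z ∈ q, ∀ i < n, z ≠ f i) → ∃ f', Emb G (n + q.length) (earA y q.length A x n) f' := by
  intro q
  induction q with
  | nil =>
    intro n A x f h hx hy hn hc _ _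
    simp only [List.nil_append, List.isChain_cons_cons] at hc
    exact ⟨f, h.add hx hy (by simpa using hn) hc.1⟩
  | cons z q ih =>
    intro n A x f h hx hy hn hc hnd hout
    simp only [List.length_cons] at hn
    rw [List.cons_append, List.isChain_cons_cons] at hc
    rw [List.nodup_cons] at hnd
    set f1 : ℕ → V := Function.update f n z with hf1
    have e1 : f1 n = z := Function.update_self ..
    have e2 : ∀ i, i < n → f1 i = f i := fun i hi => Function.update_of_ne (by omega) ..
    have hE : Emb G (n + 1) (addE A x n) f1 := by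
      refine ⟨?_, ?_, ?_, ?_⟩
      · intro i hi j hj hij
        by_cases h1 : i = n
        · by_cases h2 : j = n
          · omega
          · rw [h1, e1, e2 j (by omega)] at hij
            exact absurd hij (hout z (by simp) j (by omega))
        · by_cases h2 : j = n
          · rw [h2, e1, e2 i (by omega)] at hij
            exact absurd hij.symm (hout z (by simp) i (by omega))
          · rw [e2 i (by omega), e2 j (by omega)] at hij
            exact h.inj i (by omega) j (by omega) hij
      · intro i j hij
        rw [row_addE (by omega) (by omega)] at hij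
        rcases hij with hij | ⟨rfl, rfl⟩ | ⟨rfl, rfl⟩
        · have := h.lt i j hij; omega
        · omega
        · omega
      · intro i j hij
        rw [row_addE (by omega) (by omega)] at hij
        rcases hij with hij | ⟨rfl, rfl⟩ | ⟨rfl, rfl⟩
        · have := h.lt i j hij
          rw [e2 i this.1, e2 j this.2]
          exact h.adj i j hij
        · rw [e1, e2 _ hx]; exact hc.1
        · rw [e1, e2 _ hx]; exact hc.1.symm
      · intro i hi
        by_cases h1 : i = n
        · rw [h1, e1]; exact ⟨f x, hc.1.symm⟩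
        · rw [e2 i (by omega)]; exact h.nb i (by omega)
    obtain ⟨f', hf'⟩ := ih (n + 1) (addE A x n) n f1 hE (by omega) (by omega) (by omega)
      (by rw [e1, e2 y hy]; exact hc.2) hnd.2 (by
        intro u hu i hi
        by_cases h1 : i = n
        · rw [h1, e1]
          rintro rfl
          exact hnd.1 hu
        · rw [e2 i (by omega)]
          exact hout u (List.mem_cons_of_mem _ hu) i (by omega))
    refine ⟨f', ?_⟩
    have e3 : n + (z :: q).length = n + 1 + q.length := by simp only [List.length_cons]; omega
    rw [e3]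
    exact hf'

/-- the paths of the certificate -/
theorem isP_spec (A y : ℕ) : ∀ k p seen x, isP A y k p seen x = true → ∃ L : List ℕ,
    L.length = k ∧ (x :: L).IsChain (fun a b => (row A a).testBit b = true) ∧
    (x :: L).getLast? = some y ∧ L.Nodup ∧ ∀ z ∈ L, seen.testBit z = false := by
  intro k
  induction k with
  | zero =>
    intro p seen x h
    have h' : x = y := Nat.eq_of_beq_eq_true h
    subst h'
    exact ⟨[], rfl, by simp, by simp, by simp, by simp⟩
  | succ k ih =>
    intro p seen x h
    rw [isP] at h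
    simp only [tb_eq] at h
    cases h1 : seen.testBit (Nat.mod p 32)
    · rw [h1] at h
      simp only [cond_false] at h
      cases h2 : (row A x).testBit (Nat.mod p 32)
      · rw [h2] at h; simp at h
      · rw [h2] at h
        simp only [cond_true] at h
        obtain ⟨L, l1, l2, l3, l4, l5⟩ := ih _ _ _ h
        refine ⟨Nat.mod p 32 :: L, by simp [l1], ?_, ?_, ?_, ?_⟩
        · rw [List.isChain_cons_cons]
          exact ⟨h2, l2⟩
        · rw [List.getLast?_cons_cons]
          exact l3
        · rw [List.nodup_cons]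
          refine ⟨fun hm => ?_, l4⟩
          have := l5 _ hm
          rw [lor_bit, bit_bit] at this
          simp at this
        · intro z hz
          rcases List.mem_cons.1 hz with rfl | hz
          · exact h1
          · have := l5 _ hz
            rw [lor_bit, Bool.or_eq_false_iff] at this
            exact this.1
    · rw [h1] at h; simp at h

theorem chain_pred {R : ℕ → ℕ → Prop} : ∀ (L : List ℕ) (x : ℕ), (x :: L).IsChain R → ∀ z ∈ L,
    ∃ a, R a z := by
  intro L
  induction L with
  | nil => intro x _ z hz; simp at hz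
  | cons b L ih =>
    intro x h z hz
    rw [List.isChain_cons_cons] at h
    rcases List.mem_cons.1 hz with rfl | hz
    · exact ⟨x, h.1⟩
    · exact ih b h.2 z hz

/-- the path in the graph -/
theorem Emb.path {n A : ℕ} {f : ℕ → V} (h : Emb G n A f) {x y k p : ℕ} (hx : x < n)
    (hp : isP A y k p (bit x) x = true) : ∃ M : List V, Pa G M ∧ M.length = k + 1 ∧
      M.head? = some (f x) ∧ M.getLast? = some (f y) ∧ ∀ z ∈ M, ∃ i < n, z = f i := by
  obtain ⟨L, l1, l2, l3, l4, l5⟩ := isP_spec A y k p _ x hp
  have hlt : ∀ z ∈ x :: L, z < n := by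
    intro z hz
    rcases List.mem_cons.1 hz with rfl | hz
    · exact hx
    · obtain ⟨a, ha⟩ := chain_pred L x l2 z hz
      exact (h.lt a z ha).2
  have hnd : (x :: L).Nodup := by
    rw [List.nodup_cons]
    refine ⟨fun hm => ?_, l4⟩
    have := l5 x hm
    rw [bit_bit] at this
    simp at this
  refine ⟨(x :: L).map f, ⟨?_, ?_⟩, by simp [l1], by simp, ?_, ?_⟩
  · exact hnd.map_on (fun a ha b hb hab => h.inj a (hlt a ha) b (hlt b hb) hab)
  · rw [List.isChain_map]
    exact l2.imp (fun a b hab => h.adj a b hab)
  · rw [List.getLast?_map, l3]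
    rfl
  · intro z hz
    obtain ⟨i, hi, rfl⟩ := List.mem_map.1 hz
    exact ⟨i, hlt i hi, rfl⟩

theorem close {M q : List V} {a b : V} (hM : Pa G M) (h1 : M.head? = some a)
    (h2 : M.getLast? = some b) (hq : Pa G (a :: (q ++ [b]))) (hd : ∀ x ∈ q, x ∉ M)
    (h3 : 3 ≤ M.length + q.length) : Ci G (M ++ q.reverse) := by
  have e : a :: (q ++ [b]) = [a] ++ (q ++ [b]) := rfl
  rw [e, pa_append, pa_append (l := q)] at hq
  obtain ⟨_, ⟨p1, _, _, p2⟩, _, p3⟩ := hq
  have hMne : M ≠ [] := by rintro rfl; simp at h1
  refine ⟨?_, by simpa using h3, ?_⟩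
  · rw [pa_append]
    refine ⟨hM, pa_reverse.2 p1, fun x hx hx2 => hd x (List.mem_reverse.1 hx2) hx, ?_⟩
    intro u hu v hv
    rw [h2] at hu
    rw [List.head?_reverse] at hv
    simp only [Option.mem_def, Option.some.injEq] at hu
    subst hu
    exact (p2 v hv b (by simp)).symm
  · intro u hu v hv
    rw [List.head?_append_of_ne_nil _ hMne, h1] at hv
    simp only [Option.mem_def, Option.some.injEq] at hv
    subst hv
    rcases q with _ | ⟨c, q⟩
    · rw [List.reverse_nil, List.append_nil, h2] at hu
      simp only [Option.mem_def, Option.some.injEq] at hu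
      subst hu
      exact (p3 a (by simp) b (by simp)).symm
    · rw [List.getLast?_append_of_ne_nil _ (by simp), List.getLast?_reverse] at hu
      simp only [List.head?_cons, Option.mem_def, Option.some.injEq] at hu
      subst hu
      exact (p3 a (by simp) c (by simp)).symm

theorem Ear.reverse {f : ℕ → V} {n x y : ℕ} {q : List V} (h : Ear G f n x y q) :
    Ear G f n y x q.reverse := by
  refine ⟨?_, fun z hz => h.out z (List.mem_reverse.1 hz)⟩
  have := pa_reverse.2 h.pa
  simpa using this

/-- the number of new vertices of an ear -/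
theorem ear_upper {C n A : ℕ} {f : ℕ → V} (hA : Adm G C) (hC : 3 ≤ C) (h : Emb G n A f)
    {x y k p : ℕ} (hx : x < n) (hp : isP A y k p (bit x) x = true) {q : List V}
    (hq : Ear G f n x y q) : q.length + (k + 1) ≤ C := by
  obtain ⟨M, m1, m2, m3, m4, m5⟩ := h.path hx hp
  by_cases h3 : 3 ≤ M.length + q.length
  · have := hA.cir _ (close m1 m3 m4 hq.pa (fun z hz hz2 => by
      obtain ⟨i, hi, rfl⟩ := m5 z hz2
      exact hq.out _ hz i hi rfl) h3)
    rw [List.length_append, List.length_reverse, m2] at this
    omega
  · omega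

theorem ear_lower {C n A : ℕ} {f : ℕ → V} (hA : Adm G C) (h : Emb G n A f) {x y rm : ℕ}
    {q : List V} (hq : Ear G f n x y q) (hrm : rm ≤ q.length)
    (hb : q = [] → (row A x).testBit y = false) :
    lo (row A x) (orRows A (row A x) n) (orRows A (orRows A (row A x) n) n) rm y ≤ q.length := by
  unfold lo
  simp only [tb_eq]
  have hpa := hq.pa
  cases h1 : (row A x).testBit y
  · simp only [cond_false]
    cases h2 : (orRows A (row A x) n).testBit y
    · simp only [cond_false]
      cases h3 : (orRows A (orRows A (row A x) n) n).testBit y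
      · simpa using hrm
      · simp only [cond_true]
        obtain ⟨l, hl, hl1, hl2⟩ := orRows_bit _ _ _ _ h3
        obtain ⟨m, hm, hm1, hm2⟩ := orRows_bit _ _ _ _ hl1
        rcases q with _ | ⟨a, q⟩
        · exfalso
          simp only [List.nil_append, Pa, List.isChain_cons_cons] at hpa
          have k1 := h.adj _ _ hm1
          have k2 := h.adj _ _ hm2
          have k3 := h.adj _ _ hl2
          refine hA.gi.sq (f x) (f m) (f l) (f y) ?_ ?_ k1 k2 k3 hpa.2.1.symm
          · intro e
            have := h.inj _ (h.lt _ _ hm1).1 _ (h.lt _ _ hl2).1 e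
            subst this
            rw [hl2] at h1
            exact absurd h1 (by simp)
          · intro e
            have := h.inj _ (h.lt _ _ hm1).2 _ (h.lt _ _ hl2).2 e
            subst this
            rw [hm1] at h1
            exact absurd h1 (by simp)
        · simp
    · simp only [cond_true]
      obtain ⟨l, hl, hl1, hl2⟩ := orRows_bit _ _ _ _ h2
      have k1 := h.adj _ _ hl1
      have k2 := h.adj _ _ hl2
      rcases q with _ | ⟨a, _ | ⟨b, q⟩⟩
      · exfalso
        simp only [List.nil_append, Pa, List.isChain_cons_cons] at hpa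
        exact hA.gi.tri (f x) (f l) (f y) k1 k2 hpa.2.1.symm
      · exfalso
        simp only [List.cons_append, List.nil_append, Pa, List.isChain_cons_cons,
          List.nodup_cons, List.mem_cons] at hpa
        refine hA.gi.sq (f x) (f l) (f y) a ?_ ?_ k1 k2 hpa.2.2.1.symm hpa.2.1.symm
        · intro e
          exact hpa.1.1 (Or.inr (Or.inl e))
        · intro e
          exact hq.out a (by simp) l hl e.symm
      · simp only [List.length_cons]; omega
  · simp only [cond_true]
    have k1 := h.adj _ _ h1
    rcases q with _ | ⟨a, _ | ⟨b, _ | ⟨c, q⟩⟩⟩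
    · exfalso
      rw [hb rfl] at h1
      exact absurd h1 (by simp)
    · exfalso
      simp only [List.cons_append, List.nil_append, Pa, List.isChain_cons_cons] at hpa
      exact hA.gi.tri (f x) a (f y) hpa.2.1 hpa.2.2.1 k1.symm
    · exfalso
      simp only [List.cons_append, List.nil_append, Pa, List.isChain_cons_cons,
        List.nodup_cons, List.mem_cons] at hpa
      refine hA.gi.sq (f x) a b (f y) ?_ ?_ hpa.2.1 hpa.2.2.1 hpa.2.2.2.1 k1.symm
      · intro e
        exact hpa.1.1 (Or.inr (Or.inl e))
      · intro e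
        exact hpa.1.2.1 (Or.inr (Or.inl e))
    · simp only [List.length_cons]; omega

/-- the ear through an edge which leaves the state -/
theorem out_ear {C n A : ℕ} {f : ℕ → V} (hA : Adm G C) (h : Emb G n A f) (hn : 2 ≤ n) {x : ℕ}
    (hx : x < n) {w : V} (hw : G.Adj (f x) w) (hwo : ∀ i < n, w ≠ f i) :
    ∃ y < n, y ≠ x ∧ ∃ q, q ≠ [] ∧ Ear G f n x y q := by
  obtain ⟨y0, hy0, hy0x⟩ : ∃ y0 < n, y0 ≠ x := by
    by_cases hx0 : x = 0
    · exact ⟨1, by omega, by omega⟩
    · exact ⟨0, by omega, by omega⟩
  obtain ⟨y', hy'⟩ := h.nb y0 hy0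
  let P : V → Prop := fun z => ∃ q, Pa G q ∧ q.head? = some w ∧ q.getLast? = some z ∧
    ∀ u ∈ q, ∀ i < n, u ≠ f i
  have hPw : P w := ⟨[w], pa_single w, rfl, rfl, by simpa using hwo⟩
  have hPy : ¬ P (f y0) := by
    rintro ⟨q, _, _, q3, q4⟩
    exact q4 _ (List.mem_of_mem_getLast? q3) y0 hy0 rfl
  obtain ⟨c, d, hcd, ⟨q, q1, q2, q3, q4⟩, hPd, hcx, hdx⟩ := hA.con (f x) P w (f x) (f y0) y' hw.symm
    hy' (hwo x hx) (fun e => hy0x (h.inj _ hy0 _ hx e)) hPw hPy
  have hqne : q ≠ [] := by rintro rfl; simp at q2
  obtain ⟨y, hy, rfl⟩ : ∃ y < n, d = f y := by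
    by_contra hcon
    push Not at hcon
    apply hPd
    by_cases hdq : d ∈ q
    · obtain ⟨Q1, Q2, rfl⟩ := List.append_of_mem hdq
      have e : Q1 ++ d :: Q2 = (Q1 ++ [d]) ++ Q2 := by simp
      refine ⟨Q1 ++ [d], ?_, ?_, by simp, ?_⟩
      · rw [e, pa_append (m := Q2)] at q1
        exact q1.1
      · rw [e, List.head?_append_of_ne_nil _ (by simp)] at q2
        exact q2
      · intro u hu
        apply q4
        rw [e]
        exact List.mem_append_left _ hu
    · refine ⟨q ++ [d], ?_, ?_, by simp, ?_⟩
      · rw [pa_append]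
        refine ⟨q1, pa_single d, ?_, ?_⟩
        · intro u hu hu2
          simp only [List.mem_cons, List.mem_nil_iff, or_false] at hu2
          exact hdq (hu2 ▸ hu)
        · intro u hu v hv
          rw [q3] at hu
          simp only [Option.mem_def, Option.some.injEq, List.head?_cons] at hu hv
          rw [← hu, ← hv]; exact hcd
      · rw [List.head?_append_of_ne_nil _ hqne]; exact q2
      · intro u hu i hi
        rcases List.mem_append.1 hu with hu | hu
        · exact q4 u hu i hi
        · simp only [List.mem_cons, List.mem_nil_iff, or_false] at hu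
          rw [hu]; exact hcon i hi
  refine ⟨y, hy, fun e => hdx (by rw [e]), q, hqne, ?_, q4⟩
  have e : f x :: (q ++ [f y]) = [f x] ++ (q ++ [f y]) := rfl
  rw [e, pa_append, pa_append (l := q)]
  refine ⟨pa_single _, ⟨q1, pa_single _, ?_, ?_⟩, ?_, ?_⟩
  · intro u hu hu2
    simp only [List.mem_cons, List.mem_nil_iff, or_false] at hu2
    exact q4 u hu y hy hu2
  · intro u hu v hv
    rw [q3] at hu
    simp only [Option.mem_def, Option.some.injEq, List.head?_cons] at hu hv
    rw [← hu, ← hv]; exact hcd
  · intro u hu hu2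
    simp only [List.mem_cons, List.mem_nil_iff, or_false] at hu
    subst hu
    rcases List.mem_append.1 hu2 with h1 | h1
    · exact q4 _ h1 x hx rfl
    · simp only [List.mem_cons, List.mem_nil_iff, or_false] at h1
      exact hdx h1.symm
  · intro u hu v hv
    rw [List.head?_append_of_ne_nil _ hqne, q2] at hv
    simp only [Option.mem_def, Option.some.injEq, List.getLast?_singleton] at hu hv
    rw [← hu, ← hv]; exact hw

/-- an ear at a vertex with at most two neighbours -/
theorem exists_ear {C n A : ℕ} {f : ℕ → V} (hA : Adm G C) (h : Emb G n A f) (hn : 2 ≤ n) {x : ℕ}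
    (hx : x < n) (hc : cnt (row A x) n ≤ 2) : ∃ y < n, y ≠ x ∧ ∃ q, Ear G f n x y q ∧
      (q = [] → (row A x).testBit y = false) := by
  classical
  obtain ⟨w0, hw0⟩ := h.nb x hx
  obtain ⟨a, b, c, n1, n2, n3, a1, a2, a3⟩ := hA.deg _ _ hw0
  obtain ⟨w, hw, hwn⟩ : ∃ w, G.Adj (f x) w ∧ ∀ i, (row A x).testBit i = true → w ≠ f i := by
    by_contra hcon
    push Not at hcon
    obtain ⟨i1, h1, h1'⟩ := hcon a a1
    obtain ⟨i2, h2, h2'⟩ := hcon b a2
    obtain ⟨i3, h3, h3'⟩ := hcon c a3
    rw [cnt_eq] at hc
    have hsub : ({i1, i2, i3} : Finset ℕ) ⊆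
        ((List.range n).filter (fun j => (row A x).testBit j)).toFinset := by
      intro j hj
      rw [List.mem_toFinset, List.mem_filter, List.mem_range]
      simp only [Finset.mem_insert, Finset.mem_singleton] at hj
      rcases hj with rfl | rfl | rfl
      · exact ⟨(h.lt _ _ h1).2, h1⟩
      · exact ⟨(h.lt _ _ h2).2, h2⟩
      · exact ⟨(h.lt _ _ h3).2, h3⟩
    have hcard : ({i1, i2, i3} : Finset ℕ).card = 3 := by
      rw [Finset.card_eq_three]
      refine ⟨i1, i2, i3, ?_, ?_, ?_, rfl⟩
      · rintro rfl; exact n1 (h1'.trans h2'.symm)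
      · rintro rfl; exact n3 (h1'.trans h3'.symm)
      · rintro rfl; exact n2 (h2'.trans h3'.symm)
    have h4 := Finset.card_le_card hsub
    have h5 := List.toFinset_card_le ((List.range n).filter (fun j => (row A x).testBit j))
    omega
  by_cases hwo : ∃ y < n, w = f y
  · obtain ⟨y, hy, rfl⟩ := hwo
    have hyx : y ≠ x := by
      rintro rfl
      exact hw.ne rfl
    refine ⟨y, hy, hyx, [], ⟨?_, by simp⟩, ?_⟩
    · have e : f x :: ([] ++ [f y]) = [f x] ++ [f y] := rfl
      rw [e, pa_append]
      refine ⟨pa_single _, pa_single _, ?_, jo_single.2 hw⟩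
      intro u hu hu2
      simp only [List.mem_cons, List.mem_nil_iff, or_false] at hu hu2
      exact hw.ne (by rw [← hu, ← hu2])
    · intro _
      rw [Bool.eq_false_iff]
      intro hb
      exact hwn y hb rfl
  · push Not at hwo
    obtain ⟨y, hy, hyx, q, hq, hE⟩ := out_ear hA h hn hx hw hwo
    exact ⟨y, hy, hyx, q, hE, fun e => absurd e hq⟩

/-- an ear with new vertices -/
theorem exists_ear' {C n A : ℕ} {f : ℕ → V} (hA : Adm G C) (h : Emb G n A f) (hn : 2 ≤ n)
    (hn' : n ≤ 17) : ∃ x < n, ∃ y < n, y < x ∧ ∃ q, q ≠ [] ∧ Ear G f n x y q := by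
  classical
  obtain ⟨T, hT, hT'⟩ := hA.big
  obtain ⟨t, ht, hto⟩ : ∃ t ∈ T, ∀ i < n, t ≠ f i := by
    by_contra hcon
    push Not at hcon
    have hsub : T ⊆ (Finset.range n).image f := by
      intro t ht
      obtain ⟨i, hi, e⟩ := hcon t ht
      exact Finset.mem_image.2 ⟨i, Finset.mem_range.2 hi, e.symm⟩
    have h4 := Finset.card_le_card hsub
    have h5 : ((Finset.range n).image f).card ≤ n :=
      Finset.card_image_le.trans (by rw [Finset.card_range])
    omega
  obtain ⟨t', ht'⟩ := hT' t ht
  obtain ⟨y', hy'⟩ := h.nb 1 (by omega)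
  let P : V → Prop := fun z => ∃ q, Pa G q ∧ q.head? = some t ∧ q.getLast? = some z ∧
    ∀ u ∈ q, ∀ i < n, u ≠ f i
  have hPt : P t := ⟨[t], pa_single t, rfl, rfl, by simpa using hto⟩
  have hPy : ¬ P (f 1) := by
    rintro ⟨q, _, _, q3, q4⟩
    exact q4 _ (List.mem_of_mem_getLast? q3) 1 (by omega) rfl
  obtain ⟨c, d, hcd, ⟨q, q1, q2, q3, q4⟩, hPd, hcx, hdx⟩ := hA.con (f 0) P t t' (f 1) y' ht'
    hy' (hto 0 (by omega)) (fun e => absurd (h.inj _ (by omega) _ (by omega) e) (by omega)) hPt hPy
  have hqne : q ≠ [] := by rintro rfl; simp at q2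
  obtain ⟨v, hv, rfl⟩ : ∃ y < n, d = f y := by
    by_contra hcon
    push Not at hcon
    apply hPd
    by_cases hdq : d ∈ q
    · obtain ⟨Q1, Q2, rfl⟩ := List.append_of_mem hdq
      have e : Q1 ++ d :: Q2 = (Q1 ++ [d]) ++ Q2 := by simp
      refine ⟨Q1 ++ [d], ?_, ?_, by simp, ?_⟩
      · rw [e, pa_append (m := Q2)] at q1
        exact q1.1
      · rw [e, List.head?_append_of_ne_nil _ (by simp)] at q2
        exact q2
      · intro u hu
        apply q4
        rw [e]
        exact List.mem_append_left _ hu
    · refine ⟨q ++ [d], ?_, ?_, by simp, ?_⟩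
      · rw [pa_append]
        refine ⟨q1, pa_single d, ?_, ?_⟩
        · intro u hu hu2
          simp only [List.mem_cons, List.mem_nil_iff, or_false] at hu2
          exact hdq (hu2 ▸ hu)
        · intro u hu v hv
          rw [q3] at hu
          simp only [Option.mem_def, Option.some.injEq, List.head?_cons] at hu hv
          rw [← hu, ← hv]; exact hcd
      · rw [List.head?_append_of_ne_nil _ hqne]; exact q2
      · intro u hu i hi
        rcases List.mem_append.1 hu with hu | hu
        · exact q4 u hu i hi
        · simp only [List.mem_cons, List.mem_nil_iff, or_false] at hu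
          rw [hu]; exact hcon i hi
  obtain ⟨y, hy, hyx, q', hq', hE⟩ := out_ear hA h hn hv hcd.symm
    (q4 c (List.mem_of_mem_getLast? q3))
  rcases lt_or_gt_of_ne hyx with h1 | h1
  · exact ⟨v, hv, y, hy, h1, q', hq', hE⟩
  · exact ⟨y, hy, v, hv, h1, q'.reverse, by simpa using hq', hE.reverse⟩

end

/-! ### the loops -/

section
variable {g : ℕ → ℕ → List ℕ → Option (List ℕ)} {C A n : ℕ}

theorem rl_spec {x y : ℕ} : ∀ (c r0 : ℕ) (s out : List ℕ), rl g A x y n c r0 s = some out →
    ∀ r, r0 ≤ r → r < r0 + c → ∃ s' out', g (n + r) (earA y r A x n) s' = some out' := by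
  intro c
  induction c with
  | zero => intro r0 s out _ r h1 h2; omega
  | succ c ih =>
    intro r0 s out h r h1 h2
    rw [rl, Option.bind_eq_some_iff] at h
    obtain ⟨s', h3, h4⟩ := h
    by_cases h5 : r = r0
    · subst h5
      exact ⟨s, s', h3⟩
    · exact ih (r0 + 1) s' out h4 r (by omega) (by omega)

theorem yl_spec {x b1 b2 b3 rm : ℕ} : ∀ (Y : ℕ) (s out : List ℕ),
    yl g C A x n b1 b2 b3 rm Y s = some out → ∀ y < Y, y ≠ x → ∃ k p s' out',
      isP A y k p (bit x) x = true ∧
      rl g A x y n ((C - k) - lo b1 b2 b3 rm y) (lo b1 b2 b3 rm y) s' = some out' := by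
  intro Y
  induction Y with
  | zero => intro s out _ y hy; omega
  | succ Y ih =>
    intro s out h y hy hyx
    rw [yl.eq_def] at h
    simp only at h
    cases h1 : Nat.beq Y x
    · rw [h1] at h
      simp only [cond_false] at h
      rcases s with _ | ⟨c, s⟩
      · simp at h
      · simp only at h
        cases h2 : isP A Y (Nat.mod c 32) (Nat.div c 32) (bit x) x
        · rw [h2] at h; simp at h
        · rw [h2] at h
          simp only [cond_true] at h
          rw [Option.bind_eq_some_iff] at h
          obtain ⟨s', h3, h4⟩ := h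
          by_cases h5 : y = Y
          · subst h5
            exact ⟨_, _, s, s', h2, h3⟩
          · exact ih s' out h4 y (by omega) hyx
    · rw [h1] at h
      simp only [cond_true] at h
      have h2 : Y = x := Nat.eq_of_beq_eq_true h1
      exact ih s out h y (by omega) hyx

theorem xl_spec : ∀ (X : ℕ) (s out : List ℕ), xl g C A n X s = some out → ∀ x < X,
    ∃ s' out', yl g C A x n (row A x) (orRows A (row A x) n)
      (orRows A (orRows A (row A x) n) n) 1 x s' = some out' := by
  intro X
  induction X with
  | zero => intro s out _ x hx; omega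
  | succ X ih =>
    intro s out h x hx
    rw [xl, Option.bind_eq_some_iff] at h
    obtain ⟨s', h3, h4⟩ := h
    by_cases h5 : x = X
    · subst h5
      exact ⟨s, s', h3⟩
    · exact ih s' out h4 x (by omega)

theorem inj_spec (m n : ℕ) : ∀ i seen, inj m n i seen = true →
    (∀ a < i, dig m a < n ∧ seen.testBit (dig m a) = false) ∧
    ∀ a < i, ∀ b < i, dig m a = dig m b → a = b := by
  intro i
  induction i with
  | zero => intro seen _; exact ⟨fun a h => by omega, fun a h => by omega⟩
  | succ i ih =>
    intro seen h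
    rw [inj, tb_eq] at h
    cases h1 : seen.testBit (dig m i)
    · rw [h1] at h
      simp only [cond_false] at h
      cases h2 : Nat.blt (dig m i) n
      · rw [h2] at h; simp at h
      · rw [h2] at h
        simp only [cond_true] at h
        obtain ⟨h3, h4⟩ := ih _ h
        have h2' : dig m i < n := Nat.blt_eq.mp h2
        have key : ∀ a < i, dig m a ≠ dig m i := by
          intro a ha e
          have := (h3 a ha).2
          rw [lor_bit, bit_bit, e] at this
          simp at this
        refine ⟨fun a ha => ?_, fun a ha b hb hab => ?_⟩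
        · by_cases hai : a = i
          · subst hai; exact ⟨h2', h1⟩
          · have := h3 a (by omega)
            rw [lor_bit, Bool.or_eq_false_iff] at this
            exact ⟨this.1, this.2.1⟩
        · by_cases hai : a = i
          · by_cases hbi : b = i
            · omega
            · subst hai
              exact absurd hab.symm (key b (by omega))
          · by_cases hbi : b = i
            · subst hbi
              exact absurd hab (key a (by omega))
            · exact h4 a (by omega) b (by omega) hab
    · rw [h1] at h; simp at h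

theorem edg_spec (A m : ℕ) : ∀ es, edg A m es = true → ∀ e ∈ es,
    (row A (dig m (e / 32))).testBit (dig m (e % 32)) = true := by
  intro es
  induction es with
  | nil => intro _ e he; simp at he
  | cons e0 es ih =>
    intro h e he
    rw [edg, tb_eq] at h
    cases h1 : (row A (dig m (Nat.div e0 32))).testBit (dig m (Nat.mod e0 32))
    · rw [h1] at h; simp at h
    · rw [h1] at h
      simp only [cond_true] at h
      rcases List.mem_cons.1 he with rfl | he
      · exact h1
      · exact ih h e he

theorem mkA_spec : ∀ (es : List ℕ) (A i j : ℕ), (∀ e ∈ es, e < 1024) →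
    (row (mkA es A) i).testBit j = true → (row A i).testBit j = true ∨
      ∃ e ∈ es, (i = e / 32 ∧ j = e % 32) ∨ (i = e % 32 ∧ j = e / 32) := by
  intro es
  induction es with
  | nil => intro A i j _ h; exact Or.inl h
  | cons e es ih =>
    intro A i j he h
    rw [mkA] at h
    have he' := he e (by simp)
    rcases ih _ i j (fun e' h' => he e' (List.mem_cons_of_mem _ h')) h with h1 | ⟨e', h1, h2⟩
    · have h3 := (row_addE (A := A) (x := e / 32) (y := e % 32) (i := i) (j := j) (by omega)
        (by omega)).1 h1
      rcases h3 with h3 | h3 | h3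
      · exact Or.inl h3
      · exact Or.inr ⟨e, by simp, Or.inl h3⟩
      · exact Or.inr ⟨e, by simp, Or.inr h3⟩
    · exact Or.inr ⟨e', List.mem_cons_of_mem _ h1, h2⟩

end

section
variable {V : Type} {G : SimpleGraph V}

/-- the edges of the members of the list are given by small numbers -/
def Sm (D : List (ℕ × List ℕ)) : Prop := ∀ L ∈ D, (∀ e ∈ L.2, e < 1024) ∧
  ∀ e ∈ L.2, e / 32 < L.1 ∧ e % 32 < L.1

/-- the members of the list are excluded -/
def Exc (G : SimpleGraph V) (D : List (ℕ × List ℕ)) : Prop :=
  ∀ L ∈ D, ∀ f, ¬ Emb G L.1 (mkA L.2 0) f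

theorem ref_spec {n A m : ℕ} {f : ℕ → V} (h : Emb G n A f) : ∀ (D : List (ℕ × List ℕ)) (j : ℕ),
    Sm D → Exc G D → ref n A m D j = true → False := by
  intro D
  induction D with
  | nil => intro j _ _ h'; exact absurd h' (by simp [ref])
  | cons L D ih =>
    intro j hS hD h'
    rw [ref] at h'
    cases h1 : Nat.beq j 0
    · rw [h1] at h'
      exact ih _ (fun L hL => hS L (List.mem_cons_of_mem _ hL))
        (fun L hL => hD L (List.mem_cons_of_mem _ hL)) h'
    · rw [h1] at h'
      simp only [cond_true] at h'
      cases h2 : inj m n L.1 0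
      · rw [h2] at h'; simp at h'
      · rw [h2] at h'
        simp only [cond_true] at h'
        obtain ⟨i1, i2⟩ := inj_spec m n L.1 0 h2
        have i3 := edg_spec A m L.2 h'
        have hS' := hS L (by simp)
        refine hD L (by simp) (fun a => f (dig m a)) ⟨?_, ?_, ?_, ?_⟩
        · intro a ha b hb hab
          exact i2 a ha b hb (h.inj _ (i1 a ha).1 _ (i1 b hb).1 hab)
        · intro a b hab
          rcases mkA_spec L.2 0 a b hS'.1 hab with h3 | ⟨e, he, h3 | h3⟩
          · rw [row_bit] at h3; simp at h3
          · have := hS'.2 e he; omega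
          · have := hS'.2 e he; omega
        · intro a b hab
          rcases mkA_spec L.2 0 a b hS'.1 hab with h3 | ⟨e, he, ⟨rfl, rfl⟩ | ⟨rfl, rfl⟩⟩
          · rw [row_bit] at h3; simp at h3
          · exact h.adj _ _ (i3 e he)
          · exact (h.adj _ _ (i3 e he)).symm
        · intro a ha
          exact h.nb _ (i1 a ha).1

theorem check_spec {C : ℕ} {D : List (ℕ × List ℕ)} (hA : Adm G C) (hC : 3 ≤ C) (hS : Sm D)
    (hD : Exc G D) : ∀ (F n A : ℕ) (s out : List ℕ), check C D F n A s = some out →
      ∀ f, ¬ Emb G n A f := by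
  intro F
  induction F with
  | zero => intro n A s out h; simp [check] at h
  | succ F ih =>
    intro n A s out h f hE
    rcases s with _ | ⟨c, s⟩
    · simp [check] at h
    rw [check.eq_def] at h
    simp only at h
    have hlt : ∀ a b : ℕ, Nat.ble a b = false → b < a := by
      intro a b hab
      by_contra hcon
      rw [Nat.ble_eq_true_of_le (by omega)] at hab
      simp at hab
    cases h1 : Nat.ble 32 n
    swap
    · rw [h1] at h; simp at h
    rw [h1] at h
    simp only [cond_false] at h
    have h1' := hlt _ _ h1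
    cases h2 : Nat.ble n 1
    swap
    · rw [h2] at h; simp at h
    rw [h2] at h
    simp only [cond_false] at h
    have h2' := hlt _ _ h2
    -- the children
    have hch : ∀ {x y rm : ℕ} {q : List V} {k p : ℕ} {s' out' : List ℕ}, x < n → y < n → y ≠ x →
        Ear G f n x y q → rm ≤ q.length → (q = [] → (row A x).testBit y = false) →
        isP A y k p (bit x) x = true →
        rl (check C D F) A x y n ((C - k) - lo (row A x) (orRows A (row A x) n)
          (orRows A (orRows A (row A x) n) n) rm y) (lo (row A x) (orRows A (row A x) n)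
          (orRows A (orRows A (row A x) n) n) rm y) s' = some out' → False := by
      intro x y rm q k p s' out' hx hy hyx hq hrm hb hp hrl
      have u1 := ear_upper hA hC hE hx hp hq
      have u2 := ear_lower hA hE hq hrm hb
      obtain ⟨s'', out'', h5⟩ := rl_spec _ _ _ _ hrl q.length u2 (by omega)
      have hle : n + q.length ≤ 32 := by
        by_contra hcon
        have hF : F ≠ 0 := by
          rintro rfl
          simp [check] at h5
        obtain ⟨F', rfl⟩ := Nat.exists_eq_succ_of_ne_zero hF
        rcases s'' with _ | ⟨c', s''⟩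
        · simp [check] at h5
        · rw [check.eq_def] at h5
          simp only at h5
          rw [Nat.ble_eq_true_of_le (by omega : 32 ≤ n + q.length)] at h5
          simp at h5
      have hpa := hq.pa
      obtain ⟨f', hf'⟩ := Emb.ext (y := y) q n A x f hE hx hy hle hpa.2
        (by
          have := hpa.1
          rw [List.nodup_cons, List.nodup_append] at this
          exact this.2.1) hq.out
      exact ih _ _ _ _ h5 f' hf'
    cases h3 : Nat.beq (Nat.mod c 4) 0
    · rw [h3] at h
      simp only [cond_false] at h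
      cases h4 : Nat.beq (Nat.mod c 4) 1
      · rw [h4] at h
        simp only [cond_false] at h
        rcases s with _ | ⟨m, s⟩
        · simp at h
        · simp only at h
          cases h5 : ref n A m D (Nat.div c 4)
          · rw [h5] at h; simp at h
          · exact ref_spec hE D _ hS hD h5
      · rw [h4] at h
        simp only [cond_true] at h
        cases h5 : Nat.ble n 17
        · rw [h5] at h; simp at h
        · rw [h5] at h
          simp only [cond_true] at h
          obtain ⟨x, hx, y, hy, hyx, q, hq, hE'⟩ := exists_ear' hA hE (by omega)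
            (Nat.le_of_ble_eq_true h5)
          obtain ⟨s1, o1, h6⟩ := xl_spec n s out h x hx
          obtain ⟨k, p, s2, o2, h7, h8⟩ := yl_spec x s1 o1 h6 y hyx (by omega)
          refine hch hx hy (by omega) hE' ?_ (fun e => absurd e hq) h7 h8
          have : 0 < q.length := List.length_pos_iff.mpr hq
          omega
    · rw [h3] at h
      simp only [cond_true] at h
      cases h4 : Nat.blt (Nat.div c 4) n
      · rw [h4] at h; simp at h
      · rw [h4] at h
        simp only [cond_true] at h
        have h4' : Nat.div c 4 < n := Nat.blt_eq.mp h4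
        cases h5 : Nat.ble (cnt (row A (Nat.div c 4)) n) 2
        · rw [h5] at h; simp at h
        · rw [h5] at h
          simp only [cond_true] at h
          obtain ⟨y, hy, hyx, q, hE', hb⟩ := exists_ear hA hE (by omega) h4'
            (Nat.le_of_ble_eq_true h5)
          obtain ⟨k, p, s2, o2, h7, h8⟩ := yl_spec n s out h y hy hyx
          exact hch h4' hy hyx hE' (Nat.zero_le _) hb h7 h8

/-- the lists of certificates -/
theorem run_spec {C F : ℕ} (hA : Adm G C) (hC : 3 ≤ C) : ∀ (Ls : List (ℕ × List ℕ × List ℕ))
    (D : List (ℕ × List ℕ)), Sm D → Exc G D → small Ls = true → run C F D Ls = true →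
    Sm (push D Ls) ∧ Exc G (push D Ls) := by
  intro Ls
  induction Ls with
  | nil => intro D hS hD _ _; exact ⟨hS, hD⟩
  | cons L Ls ih =>
    intro D hS hD hs hr
    rw [small, Bool.and_eq_true, List.all_eq_true] at hs
    rw [run] at hr
    cases h1 : Option.isSome (check C D F L.1 (mkA L.2.1 0) L.2.2)
    · rw [h1] at hr; simp at hr
    · rw [h1] at hr
      simp only [cond_true] at hr
      obtain ⟨out, hout⟩ := Option.isSome_iff_exists.1 h1
      rw [push]
      refine ih _ ?_ ?_ hs.2 hr
      · intro L' hL'
        rcases List.mem_cons.1 hL' with rfl | hL'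
        · have key : ∀ e ∈ L.2.1, e < 1024 ∧ e / 32 < L.1 ∧ e % 32 < L.1 := by
            intro e he
            have := hs.1 e he
            rw [Bool.and_eq_true, Bool.and_eq_true] at this
            exact ⟨Nat.blt_eq.mp this.1, Nat.blt_eq.mp this.2.1, Nat.blt_eq.mp this.2.2⟩
          exact ⟨fun e he => (key e he).1, fun e he => (key e he).2⟩
        · exact hS L' hL'
      · intro L' hL'
        rcases List.mem_cons.1 hL' with rfl | hL'
        · exact check_spec hA hC hS hD F _ _ _ _ hout
        · exact hD L' hL'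

/-- no circuit with `C` vertices -/
theorem no_ci {C : ℕ} (hC : 3 ≤ C) {D : List (ℕ × List ℕ)}
    (hD : Exc G D) {es : List ℕ} (hes : (C, es) ∈ D) (hes' : ∀ e ∈ es, e < 1024 ∧ e / 32 < C ∧
      e % 32 < C ∧ ((e / 32) + 1) % C = e % 32) (K : List V) (hK : Ci G K) : K.length ≠ C := by
  intro hl
  have hpos : 0 < K.length := by omega
  have hg : ∀ i (hi : i < C), K.getD i (K[0]'hpos) = K[i]'(by omega) := by
    intro i hi
    simp only [List.getD_eq_getElem?_getD, List.getElem?_eq_getElem (by omega : i < K.length),
      Option.getD_some]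
  have hadj : ∀ i, i < C → G.Adj (K.getD i (K[0]'hpos)) (K.getD ((i + 1) % C) (K[0]'hpos)) := by
    intro i hi
    have hj : (i + 1) % C < C := Nat.mod_lt _ (by omega)
    rw [hg i hi, hg _ hj]
    refine adj_ix hK (List.getElem?_eq_getElem (by omega))
      (List.getElem?_eq_getElem (by omega)) ?_
    unfold Ai
    rcases Nat.lt_or_ge (i + 1) C with h | h
    · left; exact Nat.mod_eq_of_lt h
    · right; right; left
      have : i + 1 = C := by omega
      exact ⟨by omega, by rw [this, Nat.mod_self]⟩
  refine hD (C, es) hes (fun i => K.getD i (K[0]'hpos)) ⟨?_, ?_, ?_, ?_⟩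
  · intro i hi j hj hij
    rw [hg i hi, hg j hj] at hij
    exact (List.Nodup.getElem_inj_iff hK.1.1).mp hij
  · intro i j hij
    rcases mkA_spec es 0 i j (fun e he => (hes' e he).1) hij with h3 | ⟨e, he, h3 | h3⟩
    · rw [row_bit] at h3; simp at h3
    · have := hes' e he; simp only; omega
    · have := hes' e he; simp only; omega
  · intro i j hij
    rcases mkA_spec es 0 i j (fun e he => (hes' e he).1) hij with h3 | ⟨e, he, ⟨rfl, rfl⟩ | ⟨rfl, rfl⟩⟩
    · rw [row_bit] at h3; simp at h3
    · have := hes' e he
      rw [← this.2.2.2]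
      exact hadj _ this.2.1
    · have := hes' e he
      rw [← this.2.2.2]
      exact (hadj _ this.2.1).symm
  · intro i hi
    exact ⟨_, hadj i hi⟩

end

end Pool.Agent.U513.C15
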